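import Pool.Agent.H93.RG.Defs

set_option autoImplicit false
set_option linter.unusedSectionVars false

/-!
# Module MAT for blocks of size `r`: partial partitions

Port of `Pool.Agent.H3.Ac.Mat`.
-/

namespace Pool.Agent.H6.RG

open Finset Pool.Agent.H93.RG

section

variable {V : Type} {r : ℕ}

theorem isM_sub {M M' : Finset (Finset V)} (h : IsM r M') (hs : M ⊆ M') : IsM r M :=
  ⟨fun e he => h.1 e (hs he), fun e he f hf v hv hv' => h.2 e (hs he) f (hs hf) v hv hv'⟩

theorem isM_empty : IsM r (∅ : Finset (Finset V)) :=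
  ⟨fun _ he => absurd he (notMem_empty _), fun _ he => absurd he (notMem_empty _)⟩

variable [Fintype V] [DecidableEq V]

theorem mem_cov {M : Finset (Finset V)} {v : V} : v ∈ cov M ↔ ∃ e ∈ M, v ∈ e := by
  simp only [cov, mem_filter, mem_univ, true_and]

theorem cov_mono {M M' : Finset (Finset V)} (h : M ⊆ M') : cov M ⊆ cov M' := by
  intro v hv
  obtain ⟨e, he, hve⟩ := mem_cov.1 hv
  exact mem_cov.2 ⟨e, h he, hve⟩

theorem cov_union (M N : Finset (Finset V)) : cov (M ∪ N) = cov M ∪ cov N := by
  ext v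
  rw [mem_union, mem_cov, mem_cov, mem_cov]
  constructor
  · rintro ⟨e, he, hv⟩
    rcases mem_union.1 he with h | h
    · exact Or.inl ⟨e, h, hv⟩
    · exact Or.inr ⟨e, h, hv⟩
  · rintro (⟨e, he, hv⟩ | ⟨e, he, hv⟩)
    · exact ⟨e, mem_union_left _ he, hv⟩
    · exact ⟨e, mem_union_right _ he, hv⟩

theorem card_cov {M : Finset (Finset V)} (h : IsM r M) : (cov M).card = r * M.card := by
  have h1 : cov M = M.biUnion id := by
    ext v
    rw [mem_cov, mem_biUnion]
    simp only [id]
  rw [h1, card_biUnion]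
  · rw [sum_congr rfl fun e he => show (id e).card = r from h.1 e he, sum_const, smul_eq_mul, mul_comm]
  · intro e he f hf hef
    refine disjoint_left.2 fun v hv hv' => ?_
    exact hef (h.2 e he f hf v hv hv')

theorem isM_union {M N : Finset (Finset V)} (hM : IsM r M) (hN : IsM r N)
    (h : Disjoint (cov M) (cov N)) : IsM r (M ∪ N) := by
  refine ⟨fun e he => ?_, fun e he f hf v hv hv' => ?_⟩
  · rcases mem_union.1 he with h1 | h1
    · exact hM.1 e h1
    · exact hN.1 e h1
  · rcases mem_union.1 he with h1 | h1 <;> rcases mem_union.1 hf with h2 | h2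
    · exact hM.2 e h1 f h2 v hv hv'
    · exact absurd (mem_cov.2 ⟨f, h2, hv'⟩) (disjoint_left.1 h (mem_cov.2 ⟨e, h1, hv⟩))
    · exact absurd (mem_cov.2 ⟨e, h1, hv⟩) (disjoint_left.1 h (mem_cov.2 ⟨f, h2, hv'⟩))
    · exact hN.2 e h1 f h2 v hv hv'

theorem isM_singleton {B : Finset V} (h : B.card = r) : IsM r ({B} : Finset (Finset V)) := by
  refine ⟨fun e he => ?_, fun e he f hf w _ _ => ?_⟩
  · rw [mem_singleton.1 he, h]
  · rw [mem_singleton.1 he, mem_singleton.1 hf]

theorem cov_singleton (B : Finset V) : cov ({B} : Finset (Finset V)) = B := by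
  ext v
  rw [mem_cov]
  simp

theorem cov_insert (B : Finset V) (M : Finset (Finset V)) : cov (insert B M) = B ∪ cov M := by
  rw [insert_eq, cov_union, cov_singleton]

/-- adding a block of uncovered points -/
theorem isM_insert (hr : 1 ≤ r) {M : Finset (Finset V)} (hM : IsM r M) {B : Finset V} (hB : B.card = r)
    (hd : Disjoint B (cov M)) : IsM r (insert B M) ∧ B ∉ M ∧ (insert B M).card = M.card + 1 := by
  have h1 : B ∉ M := fun h2 => by
    obtain ⟨v, hv⟩ : B.Nonempty := by
      rw [← card_pos]
      omega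
    exact disjoint_left.1 hd hv (mem_cov.2 ⟨B, h2, hv⟩)
  refine ⟨?_, h1, card_insert_of_notMem h1⟩
  rw [insert_eq]
  refine isM_union (isM_singleton hB) hM ?_
  rw [cov_singleton]
  exact hd

/-- partial partitions can be extended to cover a given set -/
theorem cover (hr : 1 ≤ r) (N : Finset V) {M : Finset (Finset V)} (hM : IsM r M)
    (hroom : r * M.card + r * N.card ≤ Fintype.card V) :
    ∃ M', IsM r M' ∧ M ⊆ M' ∧ N ⊆ cov M' ∧ M'.card ≤ M.card + N.card ∧
      ∀ e ∈ M', e ∉ M → ∃ v ∈ e, v ∈ N := by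
  induction N using Finset.induction_on with
  | empty =>
    exact ⟨M, hM, Subset.refl _, empty_subset _, by simp, fun e he he' => absurd he he'⟩
  | insert v N hv ih =>
    rw [card_insert_of_notMem hv] at hroom
    obtain ⟨M1, h1, h2, h3, h4, h5⟩ := ih (by
      have : r * N.card ≤ r * (N.card + 1) := Nat.mul_le_mul_left _ (by omega)
      omega)
    by_cases hc : v ∈ cov M1
    · refine ⟨M1, h1, h2, insert_subset hc h3, ?_, fun e he he' => ?_⟩
      · rw [card_insert_of_notMem hv]
        omega
      · obtain ⟨w, hw, hw'⟩ := h5 e he he'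
        exact ⟨w, hw, mem_insert_of_mem hw'⟩
    · have h6 := card_cov h1
      obtain ⟨B, hB1, hB2, hB3⟩ : ∃ B : Finset V, v ∈ B ∧ B ⊆ (cov M1)ᶜ ∧ B.card = r := by
        have hcard : r ≤ (cov M1)ᶜ.card := by
          rw [card_compl, h6]
          have e1 : r * M1.card ≤ r * (M.card + N.card) := Nat.mul_le_mul_left _ h4
          have e2 : r * (N.card + 1) = r * N.card + r := by ring
          have e3 : r * (M.card + N.card) = r * M.card + r * N.card := by ring
          omega
        obtain ⟨B, hB1, hB2, hB3⟩ := Finset.exists_subsuperset_card_eq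
          (s := {v}) (t := (cov M1)ᶜ) (n := r) (singleton_subset_iff.2 (mem_compl.2 hc)) (by simpa using hr) hcard
        exact ⟨B, hB1 (mem_singleton_self v), hB2, hB3⟩
      have hd : Disjoint B (cov M1) := by
        rw [disjoint_left]
        intro w hw hw'
        exact mem_compl.1 (hB2 hw) hw'
      obtain ⟨h7, h8, h9⟩ := isM_insert hr h1 hB3 hd
      refine ⟨insert B M1, h7, h2.trans (subset_insert _ _), ?_, ?_, ?_⟩
      · refine insert_subset ?_ (h3.trans (cov_mono (subset_insert _ _)))
        exact mem_cov.2 ⟨B, mem_insert_self _ _, hB1⟩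
      · rw [h9, card_insert_of_notMem hv]
        omega
      · intro e he he'
        rcases mem_insert.1 he with rfl | he
        · exact ⟨v, hB1, mem_insert_self _ _⟩
        · obtain ⟨w, hw, hw'⟩ := h5 e he he'
          exact ⟨w, hw, mem_insert_of_mem hw'⟩

end

end Pool.Agent.H6.RG
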